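import Pool.Agent.helper7.CSG.SpecD

/-! csg:DRM (class S, block D): the recentred limit. -/

set_option autoImplicit false

open Complex Metric Set Filter Topology MeasureTheory
open Pool.Agent.helper98.ILF
open HY (UD T S hd UN RM)
open PM (DD rm cx pd cr hdf LP DP)
open CSS (SE SV it JJ IB)
open PL (INR PG DK ht tr DI CY hG hq)

noncomputable section

namespace P2S

theorem DRM_S {u₀ v₀ : ℂ} (hu : u₀ ∈ UD) (hv : v₀ ∈ UD) : ContinuousAt (fun p : ℂ × ℂ => S p.1 p.2) (u₀, v₀) := by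
  have h1 : ‖u₀‖ < 1 := by simpa [UD, mem_ball_zero_iff] using hu
  have h2 : ‖v₀‖ < 1 := by simpa [UD, mem_ball_zero_iff] using hv
  have h3 : 1 + (starRingEnd ℂ) u₀ * v₀ ≠ 0 := by
    intro h
    have h4 : (starRingEnd ℂ) u₀ * v₀ = -1 := by linear_combination h
    have h5 : ‖(starRingEnd ℂ) u₀ * v₀‖ = 1 := by rw [h4]; simp
    rw [norm_mul, RCLike.norm_conj] at h5
    have h6 := norm_nonneg u₀
    have h7 := norm_nonneg v₀
    nlinarith
  unfold HY.S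
  refine ContinuousAt.div ?_ ?_ ?_
  · exact (continuous_snd.add continuous_fst).continuousAt
  · exact (continuous_const.add ((Complex.continuous_conj.comp continuous_fst).mul continuous_snd)).continuousAt
  · exact h3

theorem DRM_loc {U : Ultrafilter ℕ} {u : ℕ → ℂ} {u₀ : ℂ} (hu : u₀ ∈ UD) (h : Tendsto u U (𝓝 u₀)) :
    TendstoLocallyUniformlyOn (fun j => S (u j)) (S u₀) U UD := by
  rw [Metric.tendstoLocallyUniformlyOn_iff]
  intro ε hε v₀ hv₀
  have hc := DRM_S hu hv₀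
  have hc' : ∀ᶠ p : ℂ × ℂ in 𝓝 (u₀, v₀), dist (S p.1 p.2) (S u₀ v₀) < ε / 2 :=
    (Metric.tendsto_nhds.1 hc) (ε / 2) (by linarith)
  rw [nhds_prod_eq] at hc'
  obtain ⟨A, hA, B, hB, hAB⟩ := Filter.eventually_prod_iff.1 hc'
  refine ⟨{v | B v}, mem_nhdsWithin_of_mem_nhds hB, ?_⟩
  filter_upwards [h.eventually hA] with j hj v hv
  have h1 := hAB hj hv
  have h2 := hAB hA.self_of_nhds hv
  simp only at h1 h2
  calc dist (S u₀ v) (S (u j) v) ≤ dist (S u₀ v) (S u₀ v₀) + dist (S u₀ v₀) (S (u j) v) := dist_triangle _ _ _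
    _ < ε := by rw [dist_comm (S u₀ v₀)]; linarith

theorem DRM (hMOB : HY.MOB_stmt) (hTLS : TLS_stmt) (hDLM : PL.DLM_stmt) (hDCO : PL.DCO_stmt) (hDFS : DFS_stmt) (hDCX : DCX_stmt) (hDGD : DGD_stmt) : DRM_stmt := by
  intro f V hSS μ x₀ hTP δ ε₀ hWW P hP U hU x k H w hx hk hPk χ G hFR hTL a ha hLO
  have hFL : FL f V μ x₀ x U H := hP.fl U k H x hU hk (hPk.mono fun j h => h.1)
  obtain ⟨hEd, hEc⟩ := hDCX f V hSS x hx U H χ hFR w G hTL
  obtain ⟨u, u₀, hu₀, hut, hug⟩ := hDGD f V hSS μ x₀ hTP x hx U H χ hFR hFL w G hTL a ha (hLO.mono (fun j h => h _ le_rfl))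
  obtain ⟨hGd, -, hGm, -⟩ := hTLS f V hSS x hx U H χ hFR w G hTL
  have hχm : MapsTo χ UD (χ '' UD) := mapsTo_image χ UD
  have hGχ : DifferentiableOn ℂ (fun v => G (χ v)) UD := hGd.comp hFR.dif hχm
  obtain ⟨hm, -, -, -, hSd, -⟩ := hMOB u₀ hu₀
  refine ⟨u₀, hu₀, hDLM U (fun j v => FC f V (H j - w j) (w j) (x j) (it f (w j) (x j)) (S (u j) v)) (fun v => G (χ (S u₀ v))) ?_ ?_ ?_⟩
  · filter_upwards [hEd, hug] with j hj hj2
    obtain ⟨hm', -, -, -, hSd', -⟩ := hMOB (u j) hj2.1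
    exact hj.1.comp hSd' (fun v hv => (hm' v hv).2.1)
  · exact hDCO U UD UD (fun j => FC f V (H j - w j) (w j) (x j) (it f (w j) (x j))) (fun j => S (u j)) (fun v => G (χ v)) (S u₀) isOpen_ball isOpen_ball
      hGχ.continuousOn hSd.continuousOn (fun v hv => (hm v hv).2.1) hEc (DRM_loc hu₀ hut)
  · intro ρ α hρ hα
    obtain ⟨c, k₁, hc, h⟩ := hDFS f V hSS μ x₀ hTP δ ε₀ hWW P hP a (a / 2) ρ α ha (by linarith) hρ hα
    refine ⟨c, hc, ?_⟩
    filter_upwards [hLO, hug, hk.eventually_ge_atTop k₁, hTL.le, hPk] with j h1 h2 h3 h4 h6 r hr0 hr1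
    obtain ⟨e1, e2, e3, e3', e4⟩ := h2
    have e5 : H j - w j + w j = H j := Nat.sub_add_cancel h4
    refine h (k j) h3 (x j) (H j - w j) (w j) (by omega) ?_ h1 (u j) e1 e2 ?_ ?_ e4 r hr0 hr1
    · rw [e5]
      exact h6.1
    · rw [e5]
      exact e3
    · rw [e5]
      exact e3'

end P2S
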